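import Pool.Agent.Q72.AL.Stm4

set_option autoImplicit false

open Complex MeasureTheory Filter Topology Set

namespace Pool.Agent.Q65.AL

open Pool.Agent.Q72.AL

noncomputable section

def ps (y : ℝ) : ℝ := max 0 (1 - |y|)

theorem ps_nonneg (y : ℝ) : 0 ≤ ps y := le_max_left _ _

theorem ps_le_one (y : ℝ) : ps y ≤ 1 := max_le zero_le_one (by linarith [abs_nonneg y])

theorem ps_lip (y z : ℝ) : |ps y - ps z| ≤ |y - z| := by
  have h := abs_max_sub_max_le_max 0 (1 - |y|) 0 (1 - |z|)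
  have h2 : |(1 - |y|) - (1 - |z|)| ≤ |y - z| := by
    have e : (1 - |y|) - (1 - |z|) = -(|y| - |z|) := by ring
    rw [e, abs_neg]
    exact abs_abs_sub_abs_le_abs_sub y z
  refine h.trans ?_
  simp only [sub_self, abs_zero]
  exact max_le (abs_nonneg _) h2

theorem ps_zero {y : ℝ} (h : 1 ≤ |y|) : ps y = 0 := max_eq_left (by linarith)

theorem ps_ne {y : ℝ} (h : ps y ≠ 0) : |y| ≤ 1 := by
  by_contra hc
  push Not at hc
  exact h (ps_zero hc.le)

def cl (x : ℝ) : ℝ := max 0 (min 1 x)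

theorem cl_one {x : ℝ} (h : 1 ≤ x) : cl x = 1 := by
  unfold cl; rw [min_eq_left h]; exact max_eq_right zero_le_one

theorem cl_zero {x : ℝ} (h : x ≤ 0) : cl x = 0 := by
  unfold cl; rw [min_eq_right (by linarith)]; exact max_eq_left h

theorem cl_mid {x : ℝ} (h0 : 0 ≤ x) (h : x ≤ 1) : cl x = x := by
  unfold cl; rw [min_eq_right h]; exact max_eq_right h0

theorem ps_cl (x : ℝ) : ps x = cl (x + 1) - cl x := by
  rcases le_total x (-1) with h | h
  · rw [cl_zero (by linarith), cl_zero (by linarith), ps_zero (by rw [abs_of_neg (by linarith)]; linarith)]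
    ring
  · rcases le_total x 0 with h1 | h1
    · rw [cl_mid (by linarith) (by linarith), cl_zero h1]
      unfold ps
      rw [abs_of_nonpos h1, max_eq_right (by linarith)]
      ring
    · rcases le_total x 1 with h2 | h2
      · rw [cl_one (by linarith), cl_mid h1 h2]
        unfold ps
        rw [abs_of_nonneg h1, max_eq_right (by linarith)]
      · rw [cl_one (by linarith), cl_one h2, ps_zero (by rw [abs_of_nonneg h1]; exact h2)]
        ring

theorem part (u : ℝ) (N : ℕ) :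
    ∑ j ∈ Finset.Icc (-(N : ℤ)) N, ps (u - j) = cl (u + N + 1) - cl (u - N) := by
  induction N with
  | zero => simp [ps_cl]
  | succ n ih =>
    have h : Finset.Icc (-((n + 1 : ℕ) : ℤ)) ((n + 1 : ℕ) : ℤ) =
        Finset.Icc (-(n : ℤ)) n ∪ {(-(n + 1 : ℤ)), (n + 1 : ℤ)} := by
      have := Finset.Icc_succ_succ n n
      push_cast
      exact this
    rw [h, Finset.sum_union (by simp), Finset.sum_pair (by lia), ih, ps_cl, ps_cl]
    push_cast
    have e1 : u - (-1 + -(n : ℝ)) + 1 = u + (n + 1) + 1 := by ring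
    have e2 : u - (-(n + 1 : ℝ)) + 1 = u + (n + 1) + 1 := by ring
    have e3 : u - (-(n + 1 : ℝ)) = u + n + 1 := by ring
    have e4 : u - ((n : ℝ) + 1) + 1 = u - n := by ring
    rw [e2, e3, e4]
    ring

theorem part_one {u : ℝ} {N : ℕ} (h : |u| ≤ N) :
    ∑ j ∈ Finset.Icc (-(N : ℤ)) N, ps (u - j) = 1 := by
  have h1 := abs_le.mp h
  rw [part, cl_one (by linarith [h1.1]), cl_zero (by linarith [h1.2])]
  ring

theorem wsum (N : ℕ) : ∑ j ∈ Finset.Icc (-(N : ℤ)) N, (1 / 2 : ℝ) ^ j.natAbs ≤ 3 := by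
  have h : ∑ j ∈ Finset.Icc (-(N : ℤ)) N, (1 / 2 : ℝ) ^ j.natAbs = 3 - 2 * (1 / 2) ^ N := by
    induction N with
    | zero => norm_num
    | succ n ih =>
      have h : Finset.Icc (-((n + 1 : ℕ) : ℤ)) ((n + 1 : ℕ) : ℤ) =
          Finset.Icc (-(n : ℤ)) n ∪ {(-(n + 1 : ℤ)), (n + 1 : ℤ)} := by
        have := Finset.Icc_succ_succ n n
        push_cast
        exact this
      rw [h, Finset.sum_union (by simp), Finset.sum_pair (by lia), ih]
      have e1 : (-(n + 1 : ℤ)).natAbs = n + 1 := by omega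
      have e2 : ((n : ℤ) + 1).natAbs = n + 1 := by omega
      rw [e1, e2]
      ring
  rw [h]
  have : (0 : ℝ) < (1 / 2) ^ N := by positivity
  linarith

/-- `exp` is Lipschitz below a bound -/
theorem exp_lip {a b M : ℝ} (ha : Real.exp a ≤ M) (hb : Real.exp b ≤ M) :
    |Real.exp a - Real.exp b| ≤ M * |a - b| := by
  wlog hab : b ≤ a generalizing a b
  · rw [abs_sub_comm, abs_sub_comm a b]
    exact this hb ha (le_of_not_ge hab)
  have h1 : Real.exp b ≤ Real.exp a := Real.exp_le_exp.mpr hab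
  rw [abs_of_nonneg (by linarith), abs_of_nonneg (by linarith)]
  have h2 : 1 + (b - a) ≤ Real.exp (b - a) := by linarith [Real.add_one_le_exp (b - a)]
  have h3 : Real.exp b = Real.exp a * Real.exp (b - a) := by rw [← Real.exp_add]; congr 1; ring
  have h4 : Real.exp a - Real.exp b ≤ Real.exp a * (a - b) := by
    rw [h3]
    nlinarith [Real.exp_pos a]
  exact h4.trans (mul_le_mul_of_nonneg_right ha (by linarith))

/-- the bound for the exponential factor -/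
def MM (j : ℤ) : ℝ := Real.exp (-2 * (j : ℝ) ^ 2 + 4 * |(j : ℝ)|)

def EE (j : ℤ) (y : ℝ) : ℝ := Real.exp (-2 * (j : ℝ) ^ 2 - 4 * j * y)

theorem EE_le {j : ℤ} {y : ℝ} (h : |y| ≤ 1) : EE j y ≤ MM j := by
  unfold EE MM
  apply Real.exp_le_exp.mpr
  have : -((j : ℝ) * y) ≤ |(j : ℝ)| := by
    calc -((j : ℝ) * y) ≤ |(j : ℝ) * y| := neg_le_abs _
      _ = |(j : ℝ)| * |y| := abs_mul _ _
      _ ≤ |(j : ℝ)| * 1 := by gcongr
      _ = |(j : ℝ)| := mul_one _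
  linarith

theorem EE_lip {j : ℤ} {y z : ℝ} (hy : |y| ≤ 1) (hz : |z| ≤ 1) :
    |EE j y - EE j z| ≤ MM j * (4 * |(j : ℝ)| * |y - z|) := by
  have h := exp_lip (a := -2 * (j : ℝ) ^ 2 - 4 * j * y) (b := -2 * (j : ℝ) ^ 2 - 4 * j * z)
    (EE_le hy) (EE_le hz)
  refine h.trans (le_of_eq ?_)
  have : -2 * (j : ℝ) ^ 2 - 4 * j * y - (-2 * (j : ℝ) ^ 2 - 4 * j * z) = -(4 * (j * (y - z))) := by ring
  rw [this, abs_neg, abs_mul, abs_mul]
  rw [abs_of_pos (show (0 : ℝ) < 4 by norm_num)]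
  ring

theorem MM_pos (j : ℤ) : 0 < MM j := Real.exp_pos _

def GG (j : ℤ) (T : ℝ) (θ : ℝ → ℂ) (t : ℝ) : ℂ :=
  ((ps (t - (T + j)) * EE j (t - (T + j)) : ℝ) : ℂ) * θ t

def AJ (j : ℤ) (δ : ℝ) : ℝ := 11 * δ * (1 + |(j : ℝ)|) ^ 2 * MM j

theorem th_le {j : ℤ} {T δ t : ℝ} {θ : ℝ → ℂ} (hδ : 0 ≤ δ) (hθ : ‖θ t‖ ≤ 2 * δ * |t - T|)
    (hy : |t - (T + j)| ≤ 1) : ‖θ t‖ ≤ 2 * δ * (1 + |(j : ℝ)|) := by
  refine hθ.trans ?_
  have : |t - T| ≤ 1 + |(j : ℝ)| := by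
    have e : t - T = (t - (T + j)) + j := by ring
    rw [e]
    exact (abs_add_le _ _).trans (by linarith)
  gcongr

theorem GG_zero {j : ℤ} {T t : ℝ} {θ : ℝ → ℂ} (h : 1 ≤ |t - (T + j)|) : GG j T θ t = 0 := by
  unfold GG
  rw [ps_zero h]
  simp

theorem AJ_nonneg (j : ℤ) {δ : ℝ} (hδ : 0 ≤ δ) : 0 ≤ AJ j δ := by
  unfold AJ
  have := MM_pos j
  positivity

/-- bound by distance to the outside -/
theorem GG_le {j : ℤ} {T δ t : ℝ} {θ : ℝ → ℂ} (hδ : 0 ≤ δ) (hθ : ‖θ t‖ ≤ 2 * δ * |t - T|) :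
    ‖GG j T θ t‖ ≤ ps (t - (T + j)) * AJ j δ := by
  by_cases h : 1 ≤ |t - (T + j)|
  · rw [GG_zero h, ps_zero h]; simp
  · push Not at h
    have h1 := th_le (j := j) hδ hθ h.le
    have h2 := EE_le (j := j) h.le
    have h3 : 0 ≤ EE j (t - (T + j)) := (Real.exp_pos _).le
    have h4 := ps_nonneg (t - (T + j))
    unfold GG
    rw [norm_mul, Complex.norm_real, Real.norm_of_nonneg (by positivity)]
    have h5 : EE j (t - (T + j)) * ‖θ t‖ ≤ AJ j δ := by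
      calc EE j (t - (T + j)) * ‖θ t‖ ≤ MM j * (2 * δ * (1 + |(j : ℝ)|)) := by
            apply mul_le_mul h2 h1 (norm_nonneg _) (MM_pos j).le
        _ ≤ AJ j δ := by
            unfold AJ
            have hm := (MM_pos j).le
            have h6 : (1 + |(j : ℝ)|) ≤ (1 + |(j : ℝ)|) ^ 2 := by nlinarith [abs_nonneg (j : ℝ)]
            have h7 : 2 * δ * (1 + |(j : ℝ)|) ≤ 11 * δ * (1 + |(j : ℝ)|) ^ 2 := by
              have := abs_nonneg (j : ℝ)
              nlinarith [mul_nonneg hδ (by positivity : (0 : ℝ) ≤ (1 + |(j : ℝ)|) ^ 2),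
                mul_le_mul_of_nonneg_left h6 hδ]
            calc MM j * (2 * δ * (1 + |(j : ℝ)|)) ≤ MM j * (11 * δ * (1 + |(j : ℝ)|) ^ 2) := by gcongr
              _ = _ := by ring
    calc ps (t - (T + j)) * EE j (t - (T + j)) * ‖θ t‖
        = ps (t - (T + j)) * (EE j (t - (T + j)) * ‖θ t‖) := by ring
      _ ≤ _ := by gcongr

theorem GG_lip {j : ℤ} {T δ s t : ℝ} {θ : ℝ → ℂ} (hδ : 0 ≤ δ) (hs : ‖θ s‖ ≤ 2 * δ * |s - T|)
    (ht : ‖θ t‖ ≤ 2 * δ * |t - T|) (hst : ‖θ s - θ t‖ ≤ δ * |s - t|) :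
    ‖GG j T θ s - GG j T θ t‖ ≤ AJ j δ * |s - t| := by
  have hA := AJ_nonneg j hδ
  have hps : |ps (s - (T + j)) - ps (t - (T + j))| ≤ |s - t| := by
    refine (ps_lip _ _).trans (le_of_eq ?_)
    congr 1; ring
  by_cases h1 : 1 ≤ |s - (T + j)|
  · rw [GG_zero h1, zero_sub, norm_neg]
    refine (GG_le hδ ht).trans ?_
    rw [mul_comm]
    refine mul_le_mul_of_nonneg_left ?_ hA
    rw [ps_zero h1, zero_sub, abs_neg] at hps
    exact (le_abs_self _).trans hps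
  · by_cases h2 : 1 ≤ |t - (T + j)|
    · rw [GG_zero h2, sub_zero]
      refine (GG_le hδ hs).trans ?_
      rw [mul_comm]
      refine mul_le_mul_of_nonneg_left ?_ hA
      rw [ps_zero h2, sub_zero] at hps
      exact (le_abs_self _).trans hps
    · push Not at h1 h2
      have b1 := th_le (j := j) hδ hs h1.le
      have b3 := EE_le (j := j) h1.le
      have b4 := EE_le (j := j) h2.le
      have b5 := EE_lip (j := j) h1.le h2.le
      have b5' : |EE j (s - (T + j)) - EE j (t - (T + j))| ≤ MM j * (4 * |(j : ℝ)| * |s - t|) := by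
        refine b5.trans (le_of_eq ?_)
        congr 3; ring
      have p1 := ps_le_one (t - (T + j))
      have p0 := ps_nonneg (t - (T + j))
      have e : GG j T θ s - GG j T θ t =
          (((ps (s - (T + j)) - ps (t - (T + j))) * EE j (s - (T + j)) : ℝ) : ℂ) * θ s +
          ((ps (t - (T + j)) * (EE j (s - (T + j)) - EE j (t - (T + j))) : ℝ) : ℂ) * θ s +
          ((ps (t - (T + j)) * EE j (t - (T + j)) : ℝ) : ℂ) * (θ s - θ t) := by
        unfold GG; push_cast; ring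
      have hm := (MM_pos j).le
      have hE1 : 0 ≤ EE j (s - (T + j)) := (Real.exp_pos _).le
      have hE2 : 0 ≤ EE j (t - (T + j)) := (Real.exp_pos _).le
      have hj := abs_nonneg (j : ℝ)
      have hD := abs_nonneg (s - t)
      have n1 : ‖(((ps (s - (T + j)) - ps (t - (T + j))) * EE j (s - (T + j)) : ℝ) : ℂ) * θ s‖ ≤
          |s - t| * MM j * (2 * δ * (1 + |(j : ℝ)|)) := by
        rw [norm_mul, Complex.norm_real, Real.norm_eq_abs, abs_mul, abs_of_nonneg hE1]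
        gcongr
      have n2 : ‖((ps (t - (T + j)) * (EE j (s - (T + j)) - EE j (t - (T + j))) : ℝ) : ℂ) * θ s‖ ≤
          1 * (MM j * (4 * |(j : ℝ)| * |s - t|)) * (2 * δ * (1 + |(j : ℝ)|)) := by
        rw [norm_mul, Complex.norm_real, Real.norm_eq_abs, abs_mul, abs_of_nonneg p0]
        gcongr
      have n3 : ‖((ps (t - (T + j)) * EE j (t - (T + j)) : ℝ) : ℂ) * (θ s - θ t)‖ ≤
          1 * MM j * (δ * |s - t|) := by
        rw [norm_mul, Complex.norm_real, Real.norm_eq_abs, abs_mul, abs_of_nonneg p0, abs_of_nonneg hE2]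
        gcongr
      rw [e]
      refine (norm_add₃_le).trans ?_
      refine (add_le_add (add_le_add n1 n2) n3).trans ?_
      unfold AJ
      have key : 2 * (1 + |(j : ℝ)|) + 8 * |(j : ℝ)| * (1 + |(j : ℝ)|) + 1 ≤ 11 * (1 + |(j : ℝ)|) ^ 2 := by
        nlinarith
      calc |s - t| * MM j * (2 * δ * (1 + |(j : ℝ)|)) +
            1 * (MM j * (4 * |(j : ℝ)| * |s - t|)) * (2 * δ * (1 + |(j : ℝ)|)) + 1 * MM j * (δ * |s - t|)
          = (MM j * δ * |s - t|) * (2 * (1 + |(j : ℝ)|) + 8 * |(j : ℝ)| * (1 + |(j : ℝ)|) + 1) := by ring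
        _ ≤ (MM j * δ * |s - t|) * (11 * (1 + |(j : ℝ)|) ^ 2) := by gcongr
        _ = _ := by ring

theorem AJ_sq (j : ℤ) (δ : ℝ) :
    AJ j δ ^ 2 * 2 ^ j.natAbs ≤ 121 * Real.exp 15 * δ ^ 2 * Real.exp (-((j : ℝ) ^ 2)) := by
  unfold AJ MM
  have h1 : ((2 : ℝ)) ^ j.natAbs ≤ Real.exp |(j : ℝ)| := by
    have h2 : (2 : ℝ) ≤ Real.exp 1 := by linarith [Real.add_one_le_exp (1 : ℝ)]
    have h3 : |(j : ℝ)| = (j.natAbs : ℝ) := by
      rw [Nat.cast_natAbs, Int.cast_abs]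
    rw [h3]
    calc (2 : ℝ) ^ j.natAbs ≤ (Real.exp 1) ^ j.natAbs := by gcongr
      _ = Real.exp (j.natAbs : ℝ) := by rw [← Real.exp_nat_mul, mul_one]
  have h4 : (1 + |(j : ℝ)|) ≤ Real.exp |(j : ℝ)| := by linarith [Real.add_one_le_exp |(j : ℝ)|]
  have h5 : (1 + |(j : ℝ)|) ^ 4 ≤ Real.exp (4 * |(j : ℝ)|) := by
    calc (1 + |(j : ℝ)|) ^ 4 ≤ (Real.exp |(j : ℝ)|) ^ 4 := by gcongr
      _ = Real.exp (4 * |(j : ℝ)|) := by rw [← Real.exp_nat_mul]; norm_num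
  calc (11 * δ * (1 + |(j : ℝ)|) ^ 2 * Real.exp (-2 * (j : ℝ) ^ 2 + 4 * |(j : ℝ)|)) ^ 2 * 2 ^ j.natAbs
      = 121 * δ ^ 2 * ((1 + |(j : ℝ)|) ^ 4 * Real.exp (-2 * (j : ℝ) ^ 2 + 4 * |(j : ℝ)|) ^ 2 * 2 ^ j.natAbs) := by
        ring
    _ ≤ 121 * δ ^ 2 * (Real.exp (4 * |(j : ℝ)|) * Real.exp (-2 * (j : ℝ) ^ 2 + 4 * |(j : ℝ)|) ^ 2 *
          Real.exp |(j : ℝ)|) := by gcongr
    _ = 121 * δ ^ 2 * Real.exp (4 * |(j : ℝ)| + 2 * (-2 * (j : ℝ) ^ 2 + 4 * |(j : ℝ)|) + |(j : ℝ)|) := by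
        have e9 : Real.exp (-2 * (j : ℝ) ^ 2 + 4 * |(j : ℝ)|) ^ 2 =
            Real.exp (2 * (-2 * (j : ℝ) ^ 2 + 4 * |(j : ℝ)|)) := by
          rw [← Real.exp_nat_mul]; norm_num
        rw [e9, Real.exp_add (4 * |(j : ℝ)| + 2 * (-2 * (j : ℝ) ^ 2 + 4 * |(j : ℝ)|)),
          Real.exp_add (4 * |(j : ℝ)|)]
    _ ≤ 121 * δ ^ 2 * Real.exp (15 + (-((j : ℝ) ^ 2))) := by
        refine mul_le_mul_of_nonneg_left (Real.exp_le_exp.mpr ?_) (by positivity)
        have := sq_abs (j : ℝ)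
        nlinarith [sq_nonneg (6 * |(j : ℝ)| - 13)]
    _ = _ := by rw [Real.exp_add]; ring

theorem eloc (h : J_SOB) : J_ELOC := by
  obtain ⟨C0, hC0, hS⟩ := h
  refine ⟨3 * (C0 * (121 * Real.exp 15)), by positivity, ?_⟩
  intro Z α θ δ R T v N hδ hRN hR hlip hth
  set I : ℤ → ℝ := fun j => ∫ x : ℝ, (1 + x ^ 2)⁻¹ * ‖∑ t ∈ Z, α t *
    ((Real.exp (-(2 * (t - (T + j)) ^ 2)) : ℝ) : ℂ) * cexp ((((t - (T + j)) * (v + x) : ℝ) : ℂ) * I)‖ ^ 2 with hI
  have hI0 : ∀ j, 0 ≤ I j := fun j => integral_nonneg fun x => by positivity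
  set b : ℤ → ℝ → ℂ := fun j t => α t * ((Real.exp (-(2 * (t - (T + j)) ^ 2)) : ℝ) : ℂ) *
    cexp ((((t - (T + j)) * v : ℝ) : ℂ) * Complex.I) with hb
  -- each part
  have hpart : ∀ j : ℤ, ‖∑ t ∈ Z, b j t * GG j T θ t‖ ^ 2 ≤ C0 * AJ j δ ^ 2 * I j := by
    intro j
    have h1 := hS Z (b j) (GG j T θ) (AJ j δ) (T + j) (AJ_nonneg j hδ)
      (fun t ht => (GG_le hδ (hth t ht)).trans
        (mul_le_of_le_one_left (AJ_nonneg j hδ) (ps_le_one _)))
      (fun s hs t ht => GG_lip hδ (hth s hs) (hth t ht) (hlip s hs t ht))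
      (fun t ht hh => GG_zero hh.le)
    refine h1.trans (le_of_eq ?_)
    congr 1
    rw [hI]
    refine integral_congr_ae (Filter.Eventually.of_forall fun x => ?_)
    simp only
    congr 2
    have e : ∑ t ∈ Z, α t * ((Real.exp (-(2 * (t - (T + j)) ^ 2)) : ℝ) : ℂ) *
        cexp ((((t - (T + j)) * (v + x) : ℝ) : ℂ) * Complex.I) =
        cexp (((-(T + j) * x : ℝ) : ℂ) * Complex.I) * ∑ t ∈ Z, b j t * cexp (((t * x : ℝ) : ℂ) * Complex.I) := by
      rw [Finset.mul_sum]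
      refine Finset.sum_congr rfl fun t _ => ?_
      rw [hb]
      simp only
      have e2 : cexp ((((t - (T + j)) * (v + x) : ℝ) : ℂ) * Complex.I) =
          cexp (((-(T + j) * x : ℝ) : ℂ) * Complex.I) * (cexp ((((t - (T + j)) * v : ℝ) : ℂ) * Complex.I) *
            cexp (((t * x : ℝ) : ℂ) * Complex.I)) := by
        rw [← Complex.exp_add, ← Complex.exp_add]
        congr 1
        push_cast
        ring
      rw [e2]
      ring
    rw [e, norm_mul, Complex.norm_exp_ofReal_mul_I, one_mul]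
  -- decomposition
  have hdec : ∑ t ∈ Z, α t * ((Real.exp (-(2 * (t - T) ^ 2)) : ℝ) : ℂ) *
      cexp ((((t - T) * v : ℝ) : ℂ) * Complex.I) * θ t =
      ∑ j ∈ Finset.Icc (-(N : ℤ)) N, cexp (((j * v : ℝ) : ℂ) * Complex.I) * ∑ t ∈ Z, b j t * GG j T θ t := by
    have e1 : ∀ t ∈ Z, α t * ((Real.exp (-(2 * (t - T) ^ 2)) : ℝ) : ℂ) *
        cexp ((((t - T) * v : ℝ) : ℂ) * Complex.I) * θ t =
        ∑ j ∈ Finset.Icc (-(N : ℤ)) N, cexp (((j * v : ℝ) : ℂ) * Complex.I) * (b j t * GG j T θ t) := by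
      intro t ht
      have hp := part_one (u := t - T) (N := N) ((hR t ht).trans hRN)
      have e3 : ∀ j ∈ Finset.Icc (-(N : ℤ)) N, cexp (((j * v : ℝ) : ℂ) * Complex.I) * (b j t * GG j T θ t) =
          ((ps (t - T - j) : ℝ) : ℂ) * (α t * ((Real.exp (-(2 * (t - T) ^ 2)) : ℝ) : ℂ) *
            cexp ((((t - T) * v : ℝ) : ℂ) * Complex.I) * θ t) := by
        intro j _
        rw [hb]
        unfold GG EE
        simp only
        have e4 : Real.exp (-(2 * (t - T) ^ 2)) = Real.exp (-(2 * (t - (T + j)) ^ 2)) *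
            Real.exp (-2 * (j : ℝ) ^ 2 - 4 * j * (t - (T + j))) := by
          rw [← Real.exp_add]; congr 1; ring
        have e5 : cexp ((((t - T) * v : ℝ) : ℂ) * Complex.I) = cexp (((j * v : ℝ) : ℂ) * Complex.I) *
            cexp ((((t - (T + j)) * v : ℝ) : ℂ) * Complex.I) := by
          rw [← Complex.exp_add]; congr 1; push_cast; ring
        have e6 : t - T - j = t - (T + j) := by ring
        rw [e4, e5, e6]
        push_cast
        ring
      rw [Finset.sum_congr rfl e3, ← Finset.sum_mul, ← Complex.ofReal_sum, hp]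
      simp
    rw [Finset.sum_congr rfl e1, Finset.sum_comm]
    refine Finset.sum_congr rfl fun j _ => ?_
    rw [Finset.mul_sum]
  rw [hdec]
  have hn : ‖∑ j ∈ Finset.Icc (-(N : ℤ)) N, cexp (((j * v : ℝ) : ℂ) * Complex.I) * ∑ t ∈ Z, b j t * GG j T θ t‖ ≤
      ∑ j ∈ Finset.Icc (-(N : ℤ)) N, ‖∑ t ∈ Z, b j t * GG j T θ t‖ := by
    refine (norm_sum_le _ _).trans (le_of_eq ?_)
    refine Finset.sum_congr rfl fun j _ => ?_
    rw [norm_mul, Complex.norm_exp_ofReal_mul_I, one_mul]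
  have hcs := Finset.sum_sq_le_sum_mul_sum_of_sq_le_mul (Finset.Icc (-(N : ℤ)) N)
    (r := fun j => ‖∑ t ∈ Z, b j t * GG j T θ t‖) (f := fun j => (1 / 2 : ℝ) ^ j.natAbs)
    (g := fun j => (2 : ℝ) ^ j.natAbs * ‖∑ t ∈ Z, b j t * GG j T θ t‖ ^ 2)
    (fun j _ => by positivity) (fun j _ => by positivity) (fun j _ => by
      rw [← mul_assoc, ← mul_pow]
      norm_num)
  calc ‖∑ j ∈ Finset.Icc (-(N : ℤ)) N, cexp (((j * v : ℝ) : ℂ) * Complex.I) * ∑ t ∈ Z, b j t * GG j T θ t‖ ^ 2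
      ≤ (∑ j ∈ Finset.Icc (-(N : ℤ)) N, ‖∑ t ∈ Z, b j t * GG j T θ t‖) ^ 2 := by gcongr
    _ ≤ (∑ j ∈ Finset.Icc (-(N : ℤ)) N, (1 / 2 : ℝ) ^ j.natAbs) *
        ∑ j ∈ Finset.Icc (-(N : ℤ)) N, (2 : ℝ) ^ j.natAbs * ‖∑ t ∈ Z, b j t * GG j T θ t‖ ^ 2 := hcs
    _ ≤ 3 * ∑ j ∈ Finset.Icc (-(N : ℤ)) N, C0 * (121 * Real.exp 15 * δ ^ 2 * Real.exp (-((j : ℝ) ^ 2))) * I j := by
        refine mul_le_mul (wsum N) (Finset.sum_le_sum fun j _ => ?_)
          (Finset.sum_nonneg fun j _ => by positivity) (by norm_num)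
        calc (2 : ℝ) ^ j.natAbs * ‖∑ t ∈ Z, b j t * GG j T θ t‖ ^ 2
            ≤ (2 : ℝ) ^ j.natAbs * (C0 * AJ j δ ^ 2 * I j) := by gcongr; exact hpart j
          _ = C0 * (AJ j δ ^ 2 * (2 : ℝ) ^ j.natAbs) * I j := by ring
          _ ≤ _ := by
              have := hI0 j
              have := AJ_sq j δ
              gcongr
    _ = _ := by
        rw [Finset.mul_sum, Finset.mul_sum]
        refine Finset.sum_congr rfl fun j _ => ?_
        ring

end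

end Pool.Agent.Q65.AL
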